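import Pool.Agent.U708.MS.Bes
import Pool.Agent.R296.SM.NormU
import Pool.Agent.R296.SM.Lg
import Pool.Agent.R509.HM.Sqf

/-! # Only the absolutely continuous part of the spectral measures contributes (helper708): preparations -/

set_option autoImplicit false

namespace Pool.Agent.U708.SP

open Finset MeasureTheory Filter Topology
open Pool.Agent.R296.SM Pool.Agent.R296.RE Pool.Agent.U708.MS

noncomputable section

/-- `σ` is carried by a null set, up to the mass `c` -/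
def Near (σ : Measure UnitAddCircle) (c : ℝ) : Prop :=
  ∃ S : Set UnitAddCircle, MeasurableSet S ∧ volume S = 0 ∧ σ.real Sᶜ ≤ c

lemma exists_f {σ : Measure UnitAddCircle} [IsFiniteMeasure σ] {c : ℝ} (h : Near σ c) (δ : ℝ) (hδ : 0 < δ) :
    ∃ f : C(UnitAddCircle, ℝ), (∀ η, 0 ≤ f η ∧ f η ≤ 1) ∧ ∫ η, (1 - f η) ^ 2 ∂σ ≤ c + δ ∧ ∫ η, f η ^ 2 ≤ δ := by
  obtain ⟨S, hS, hS0, hSc⟩ := h
  obtain ⟨K, hKS, hK, hK1⟩ := hS.exists_isCompact_diff_lt (measure_ne_top σ S)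
    (show ENNReal.ofReal δ ≠ 0 by simpa using hδ)
  have hK0 : volume K = 0 := measure_mono_null hKS hS0
  obtain ⟨U, hKU, hU, hU1⟩ := K.exists_isOpen_lt_of_lt (μ := volume) (ENNReal.ofReal δ) (by
    rw [hK0]; simpa using hδ)
  obtain ⟨f, hf0, hf1, hf⟩ := exists_continuous_zero_one_of_isClosed hU.isClosed_compl hK.isClosed (by
    rw [Set.disjoint_left]
    intro x hx hx'
    exact hx (hKU hx'))
  refine ⟨f, fun η => ⟨(hf η).1, (hf η).2⟩, ?_, ?_⟩
  · have h1 : ∫ η, (1 - f η) ^ 2 ∂σ ≤ ∫ η, Kᶜ.indicator (fun _ => (1 : ℝ)) η ∂σ := by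
      apply integral_mono
      · exact int_of_cont (by fun_prop) σ
      · exact (integrable_const 1).indicator hK.measurableSet.compl
      intro η
      by_cases hη : η ∈ K
      · have e1 : f η = 1 := hf1 hη
        simp [e1, hη]
      · simp only [Set.mem_compl_iff, hη, not_false_eq_true, Set.indicator_of_mem]
        have e1 := hf η
        exact pow_le_one₀ (by linarith [e1.2]) (by linarith [e1.1])
    have h2 : ∫ η, Kᶜ.indicator (fun _ => (1 : ℝ)) η ∂σ = σ.real Kᶜ := by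
      rw [integral_indicator_const _ hK.measurableSet.compl, smul_eq_mul, mul_one]
    have h3 : σ.real Kᶜ ≤ σ.real Sᶜ + σ.real (S \ K) := by
      refine le_trans (measureReal_mono ?_) (measureReal_union_le _ _)
      intro x hx
      by_cases h : x ∈ S
      · exact Or.inr ⟨h, hx⟩
      · exact Or.inl h
    have h4 : σ.real (S \ K) ≤ δ := by
      unfold Measure.real
      exact ENNReal.toReal_le_of_le_ofReal hδ.le hK1.le
    linarith
  · have h1 : ∫ η, f η ^ 2 ≤ ∫ η, U.indicator (fun _ => (1 : ℝ)) η := by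
      apply integral_mono
      · exact int_of_cont (by fun_prop) _
      · exact (integrable_const 1).indicator hU.measurableSet
      intro η
      by_cases hη : η ∈ U
      · simp only [hη, Set.indicator_of_mem]
        have e1 := hf η
        exact pow_le_one₀ e1.1 e1.2
      · have e1 : f η = 0 := hf0 hη
        simp [e1, hη]
    have h2 : ∫ η, U.indicator (fun _ => (1 : ℝ)) η = volume.real U := by
      rw [integral_indicator_const _ hU.measurableSet, smul_eq_mul, mul_one]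
    have h4 : (volume : Measure UnitAddCircle).real U ≤ δ := by
      unfold Measure.real
      exact ENNReal.toReal_le_of_le_ofReal hδ.le hU1.le
    linarith

/-- two shifts of a twisted weight -/
lemma two_shift {f : ℕ → ℤ} (hb : ∀ n, |f n| ≤ 1) {E : Set ℕ} (hE : Kf f E) (k l : ℤ) (hkl : k ≠ l) (η : ℝ)
    (hη : 0 < η) : ∃ N₀ : ℕ, ∀ N ≥ N₀, N ∉ E → ∀ θ : UnitAddCircle,
      ‖∑ m ∈ Ioc (0 : ℤ) N, (starRingEnd ℂ) (ext0 (tws f θ) (m - k)) * ext0 (tws f θ) (m - l)‖ ≤ η * N := by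
  obtain ⟨D, hDk, hDl⟩ : ∃ D : ℕ, |k| ≤ (D : ℤ) ∧ |l| ≤ (D : ℤ) := ⟨k.natAbs + l.natAbs, by
    rw [Int.abs_eq_natAbs]; omega, by rw [Int.abs_eq_natAbs]; omega⟩
  have hk := abs_le.1 hDk
  have hl := abs_le.1 hDl
  obtain ⟨a, ha⟩ : ∃ a : ℕ, (a : ℤ) = D - k := ⟨(D - k).toNat, by omega⟩
  obtain ⟨b, hb'⟩ : ∃ b : ℕ, (b : ℤ) = D - l := ⟨(D - l).toNat, by omega⟩
  obtain ⟨N₁, h1⟩ := pair2 hb hE a b (by omega) (η / 2) (by positivity)
  obtain ⟨N₂, hN₂⟩ := exists_nat_ge (4 * D / η)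
  refine ⟨N₁ + N₂, fun N hN hNE θ => ?_⟩
  have h2 := h1 N (by omega) hNE 0
  obtain ⟨F, hF⟩ : ∃ F : ℤ → ℂ, F = fun m => (starRingEnd ℂ) (ext0 (tws f θ) (m - k)) * ext0 (tws f θ) (m - l) :=
    ⟨_, rfl⟩
  have hF1 : ∀ m, ‖F m‖ ≤ 1 := by
    intro m
    rw [hF]
    simp only
    rw [norm_mul, RCLike.norm_conj]
    exact mul_le_one₀ (ext0_le (norm_tws hb θ) _) (norm_nonneg _) (ext0_le (norm_tws hb θ) _)
  have h3 := moving F 1 hF1 0 N (by omega) D
  have h4 : ∑ m ∈ Ioc ((0 : ℤ) + D) (N + D), F m =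
      (fourier (k - l) θ : ℂ) * ∑ n ∈ Icc 1 N, ((f (n + a) : ℂ) * f (n + b)) := by
    rw [← sum_Ioc_shift, mul_sum]
    refine sum_nbij' (fun m : ℤ => m.toNat) (fun n : ℕ => (n : ℤ)) ?_ ?_ ?_ ?_ ?_
    · intro m hm
      rw [mem_Ioc] at hm
      rw [mem_Icc]
      omega
    · intro n hn
      rw [mem_Icc] at hn
      rw [mem_Ioc]
      omega
    · intro m hm
      rw [mem_Ioc] at hm
      omega
    · intro n _
      simp
    · intro m hm
      rw [mem_Ioc] at hm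
      rw [hF]
      simp only
      have e1 : m + D - k = ((m.toNat + a : ℕ) : ℤ) := by omega
      have e2 : m + D - l = ((m.toNat + b : ℕ) : ℤ) := by omega
      rw [e1, e2]
      unfold ext0
      rw [if_pos (by omega), if_pos (by omega)]
      simp only [Int.toNat_natCast]
      unfold tws
      rw [map_mul, map_intCast, ← fourier_neg]
      have e3 : (fourier (k - l) θ : ℂ) = fourier (-((m.toNat + a : ℕ) : ℤ)) θ * fourier ((m.toNat + b : ℕ) : ℤ) θ := by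
        rw [← fourier_add]
        have e4 : k - l = -((m.toNat + a : ℕ) : ℤ) + ((m.toNat + b : ℕ) : ℤ) := by push_cast; omega
        rw [← e4]
      rw [e3]
      ring
  have h5 : ‖∑ m ∈ Ioc ((0 : ℤ) + D) (N + D), F m‖ ≤ η / 2 * N := by
    rw [h4, norm_mul, fourier_apply, Circle.norm_coe, one_mul]
    refine le_trans (le_of_eq ?_) h2
    congr 1
    refine sum_congr rfl fun n _ => ?_
    rw [zero_mul, Pool.Agent.Helper602.MK.ee]
    simp
  have h6 : 2 * (D : ℝ) * 1 ≤ η / 2 * N := by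
    have : 4 * (D : ℝ) / η ≤ N := hN₂.trans (by exact_mod_cast (by omega : N₂ ≤ N))
    rw [div_le_iff₀ hη] at this
    linarith
  have h7 : ‖∑ m ∈ Ioc (0 : ℤ) N, F m‖ ≤ ‖∑ m ∈ Ioc ((0 : ℤ) + D) (N + D), F m‖ +
      ‖∑ m ∈ Ioc ((0 : ℤ) + D) (N + D), F m - ∑ m ∈ Ioc (0 : ℤ) N, F m‖ := by
    have := norm_sub_le (∑ m ∈ Ioc ((0 : ℤ) + D) (N + D), F m)
      (∑ m ∈ Ioc ((0 : ℤ) + D) (N + D), F m - ∑ m ∈ Ioc (0 : ℤ) N, F m)
    rwa [sub_sub_cancel] at this
  have h8 : ‖∑ m ∈ Ioc (0 : ℤ) N, F m‖ ≤ η * N := by linarith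
  rw [hF] at h8
  exact h8

/-- the filtered weight in mean square -/
lemma gw_ms {f : ℕ → ℤ} (hb : ∀ n, |f n| ≤ 1) {E : Set ℕ} (hE : Kf f E) (S : Finset ℤ) (c : ℤ → ℂ) (η : ℝ)
    (hη : 0 < η) : ∃ N₀ : ℕ, ∀ N ≥ N₀, N ∉ E → ∀ θ : UnitAddCircle,
      ∑ m ∈ Ioc (0 : ℤ) N, ‖gw S c (ext0 (tws f θ)) m‖ ^ 2 ≤ ((∑ k ∈ S, ‖c k‖ ^ 2) + η) * N := by
  classical
  obtain ⟨C, hC⟩ : ∃ C : ℝ, C = ∑ k ∈ S, ∑ l ∈ S, ‖c k‖ * ‖c l‖ := ⟨_, rfl⟩
  have hC0 : 0 ≤ C := by rw [hC]; positivity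
  have h : ∀ k l : ℤ, ∃ N₀ : ℕ, k ≠ l → ∀ N ≥ N₀, N ∉ E → ∀ θ : UnitAddCircle,
      ‖∑ m ∈ Ioc (0 : ℤ) N, (starRingEnd ℂ) (ext0 (tws f θ) (m - k)) * ext0 (tws f θ) (m - l)‖ ≤ η / (C + 1) * N := by
    intro k l
    by_cases hkl : k = l
    · exact ⟨0, fun h => absurd hkl h⟩
    · obtain ⟨N₀, h1⟩ := two_shift hb hE k l hkl (η / (C + 1)) (by positivity)
      exact ⟨N₀, fun _ => h1⟩
  choose N₀ hN₀ using h
  refine ⟨∑ k ∈ S, ∑ l ∈ S, N₀ k l, fun N hN hNE θ => ?_⟩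
  obtain ⟨g, hg⟩ : ∃ g : ℤ → ℂ, g = ext0 (tws f θ) := ⟨_, rfl⟩
  have hg1 : ∀ m, ‖g m‖ ≤ 1 := by rw [hg]; exact ext0_le (norm_tws hb θ)
  rw [← hg]
  have e1 : ((∑ m ∈ Ioc (0 : ℤ) N, ‖gw S c g m‖ ^ 2 : ℝ) : ℂ) =
      ∑ k ∈ S, ∑ l ∈ S, ((starRingEnd ℂ) (c k) * c l) *
        ∑ m ∈ Ioc (0 : ℤ) N, (starRingEnd ℂ) (g (m - k)) * g (m - l) := by
    push_cast
    simp_rw [mul_sum]
    rw [sum_congr rfl (fun k _ => sum_comm), sum_comm]
    refine sum_congr rfl fun m _ => ?_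
    rw [← Complex.conj_mul', gw, map_sum, sum_mul_sum]
    refine sum_congr rfl fun k _ => sum_congr rfl fun l _ => ?_
    rw [map_mul]
    ring
  have e2 : ∀ k ∈ S, ∀ l ∈ S, ‖((starRingEnd ℂ) (c k) * c l) *
      ∑ m ∈ Ioc (0 : ℤ) N, (starRingEnd ℂ) (g (m - k)) * g (m - l)‖ ≤
        (if k = l then ‖c k‖ ^ 2 * N else 0) + ‖c k‖ * ‖c l‖ * (η / (C + 1) * N) := by
    intro k hk l hl
    rw [norm_mul, norm_mul, RCLike.norm_conj]
    by_cases hkl : k = l
    · subst hkl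
      rw [if_pos rfl]
      have e3 : ‖∑ m ∈ Ioc (0 : ℤ) N, (starRingEnd ℂ) (g (m - k)) * g (m - k)‖ ≤ N := by
        refine (norm_sum_le _ _).trans ?_
        calc _ ≤ ∑ _m ∈ Ioc (0 : ℤ) (N : ℤ), (1 : ℝ) := by
              refine sum_le_sum fun m _ => ?_
              rw [norm_mul, RCLike.norm_conj]
              exact mul_le_one₀ (hg1 _) (norm_nonneg _) (hg1 _)
          _ = N := by rw [sum_const, nsmul_eq_mul, mul_one, Int.card_Ioc]; simp
      have e4 : 0 ≤ ‖c k‖ * ‖c k‖ * (η / (C + 1) * N) := by positivity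
      calc ‖c k‖ * ‖c k‖ * _ ≤ ‖c k‖ * ‖c k‖ * (N : ℝ) := mul_le_mul_of_nonneg_left e3 (by positivity)
        _ = ‖c k‖ ^ 2 * N := by ring
        _ ≤ _ := by linarith
    · rw [if_neg hkl, zero_add]
      refine mul_le_mul_of_nonneg_left ?_ (by positivity)
      rw [hg]
      refine hN₀ k l hkl N (le_trans ?_ hN) hNE θ
      refine le_trans ?_ (single_le_sum (f := fun k => ∑ l ∈ S, N₀ k l) (fun _ _ => Nat.zero_le _) hk)
      exact single_le_sum (f := fun l => N₀ k l) (fun _ _ => Nat.zero_le _) hl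
  have e3 : ∑ m ∈ Ioc (0 : ℤ) N, ‖gw S c g m‖ ^ 2 ≤
      ‖∑ k ∈ S, ∑ l ∈ S, ((starRingEnd ℂ) (c k) * c l) *
        ∑ m ∈ Ioc (0 : ℤ) N, (starRingEnd ℂ) (g (m - k)) * g (m - l)‖ := by
    rw [← e1, Complex.norm_real]
    exact le_abs_self _
  refine e3.trans ((norm_sum_le _ _).trans ?_)
  calc _ ≤ ∑ k ∈ S, ∑ l ∈ S, ((if k = l then ‖c k‖ ^ 2 * (N : ℝ) else 0) + ‖c k‖ * ‖c l‖ * (η / (C + 1) * N)) :=
        sum_le_sum fun k hk => (norm_sum_le _ _).trans (sum_le_sum fun l hl => e2 k hk l hl)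
    _ = (∑ k ∈ S, ‖c k‖ ^ 2) * N + C * (η / (C + 1) * N) := by
        simp_rw [sum_add_distrib]
        congr 1
        · rw [sum_mul]
          refine sum_congr rfl fun k hk => ?_
          rw [sum_ite_eq, if_pos hk]
        · rw [hC, sum_mul]
          refine sum_congr rfl fun k _ => ?_
          rw [sum_mul]
    _ ≤ _ := by
        have : C * (η / (C + 1) * N) = (C / (C + 1)) * (η * N) := by ring
        rw [this, add_mul]
        have h1 : C / (C + 1) * (η * N) ≤ 1 * (η * N) := by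
          apply mul_le_mul_of_nonneg_right _ (by positivity)
          rw [div_le_one (by positivity)]
          linarith
        linarith

/-- the mean square of the weight -/
def Msq (f : ℕ → ℤ) (q : ℝ) : Prop := ∀ η : ℝ, 0 < η → ∃ N₀ : ℕ, ∀ N ≥ N₀,
  ∑ n ∈ Icc 1 N, |(f n : ℝ)| ^ 2 ≤ (q + η) * N

lemma msq_one {f : ℕ → ℤ} (hb : ∀ n, |f n| ≤ 1) : Msq f 1 := by
  intro η hη
  refine ⟨0, fun N _ => ?_⟩
  calc ∑ n ∈ Icc 1 N, |(f n : ℝ)| ^ 2 ≤ ∑ _n ∈ Icc 1 N, (1 : ℝ) := by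
        refine sum_le_sum fun n _ => ?_
        have : |(f n : ℝ)| ≤ 1 := by exact_mod_cast hb n
        exact pow_le_one₀ (abs_nonneg _) this
    _ = 1 * N := by rw [sum_const, nsmul_eq_mul, mul_one, Nat.card_Icc, Nat.add_sub_cancel, one_mul]
    _ ≤ _ := mul_le_mul_of_nonneg_right (by linarith) (Nat.cast_nonneg _)

open Pool.Agent.R509.HM in
lemma msq_mu : Msq (fun n => ArithmeticFunction.moebius n) (6 / Real.pi ^ 2) := by
  intro η hη
  obtain ⟨n, hn⟩ := exists_W (η / 2) (by positivity)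
  obtain ⟨S, hSd⟩ : ∃ S : Finset ℕ, S = Nat.primesBelow n := ⟨_, rfl⟩
  have hS : ∀ p ∈ S, p.Prime := fun p hp => by
    rw [hSd] at hp
    exact Nat.prime_of_mem_primesBelow hp
  obtain ⟨D, hD⟩ : ∃ D : ℕ, D = DS S := ⟨_, rfl⟩
  have hD0 : 1 ≤ D := by rw [hD]; exact DS_pos S hS
  have hDr : (0 : ℝ) < D := by exact_mod_cast hD0
  have hpi : (0 : ℝ) < 6 / Real.pi ^ 2 := by have := Real.pi_pos; positivity
  obtain ⟨W, hW⟩ : ∃ W : ℝ, W = 6 / Real.pi ^ 2 + η / 2 := ⟨_, rfl⟩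
  have hW0 : 0 < W := by rw [hW]; positivity
  have hper : ∀ M : ℕ, ∑ b ∈ range (M * D), sqS S b ≤ M * (W * D) := by
    intro M
    induction M with
    | zero => simp
    | succ M ih =>
      rw [Nat.succ_mul, sum_range_add]
      have h1 : ∑ b ∈ range D, sqS S (M * D + b) = ∑ b ∈ range D, sqS S b := by
        refine sum_congr rfl fun b _ => ?_
        clear ih
        induction M with
        | zero => simp
        | succ M ih =>
          rw [← ih, Nat.succ_mul, show M * D + D + b = (M * D + b) + D by ring, hD, sqS_per]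
      have h2 : ∑ b ∈ range D, sqS S b ≤ W * D := by
        rw [hD, sqS_sum S hS, hSd, hW]
        exact mul_le_mul_of_nonneg_right hn (Nat.cast_nonneg _)
      rw [h1]
      push_cast
      linarith
  obtain ⟨N₀, hN₀⟩ := exists_nat_ge (2 * (W * D + 1) * 2 / η)
  refine ⟨N₀, fun N hN => ?_⟩
  have h1 : ∑ n ∈ Icc 1 N, |(((ArithmeticFunction.moebius n : ℤ)) : ℝ)| ^ 2 ≤ ∑ b ∈ range ((N / D + 2) * D), sqS S b := by
    calc _ ≤ ∑ n ∈ Icc 1 N, sqS S n := by
          refine sum_le_sum fun n _ => ?_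
          have e1 := mob_le S hS n
          have e2 : |(((ArithmeticFunction.moebius n : ℤ)) : ℝ)| ≤ 1 := e1.trans (sqS_le S n)
          calc _ = |(((ArithmeticFunction.moebius n : ℤ)) : ℝ)| * |(((ArithmeticFunction.moebius n : ℤ)) : ℝ)| := sq _
            _ ≤ |(((ArithmeticFunction.moebius n : ℤ)) : ℝ)| * 1 := mul_le_mul_of_nonneg_left e2 (abs_nonneg _)
            _ ≤ _ := by rw [mul_one]; exact e1
      _ ≤ _ := by
          refine sum_le_sum_of_subset_of_nonneg ?_ fun n _ _ => sqS_nonneg S n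
          intro n hn
          rw [mem_Icc] at hn
          rw [mem_range]
          have h2 := Nat.lt_div_mul_add (a := N) hD0
          calc n ≤ N := hn.2
            _ < N / D * D + D := h2
            _ ≤ (N / D + 2) * D := by rw [add_mul]; omega
  refine h1.trans ((hper _).trans ?_)
  have h2 : (((N / D + 2 : ℕ)) : ℝ) * (W * D) ≤ W * N + 2 * (W * D) := by
    push_cast
    have h3 : ((N / D : ℕ) : ℝ) * D ≤ N := by exact_mod_cast Nat.div_mul_le_self N D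
    calc ((N / D : ℕ) + 2 : ℝ) * (W * D) = W * (((N / D : ℕ) : ℝ) * D) + 2 * (W * D) := by ring
      _ ≤ _ := by
          have := mul_le_mul_of_nonneg_left h3 hW0.le
          linarith
  refine h2.trans ?_
  have h4 : 2 * (W * D + 1) * 2 / η ≤ N := hN₀.trans (by exact_mod_cast hN)
  rw [div_le_iff₀ hη] at h4
  rw [hW] at h4 ⊢
  nlinarith

end

end Pool.Agent.U708.SP
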