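import Pool.Agent.U708.SP.A

/-! # Only the absolutely continuous part of the spectral measures contributes (helper708): the criterion -/

set_option autoImplicit false

namespace Pool.Agent.U708.SP

open Finset MeasureTheory Filter Topology
open Pool.Agent.R296.SM Pool.Agent.R296.RE Pool.Agent.U708.MS

noncomputable section

section crit

variable {K : Type*} [NormedAddCommGroup K] [InnerProductSpace ℂ K]

lemma long_det (S : Finset ℤ) (c : ℤ → ℂ) (D : ℕ) (hD : ∀ k ∈ S, |k| ≤ (D : ℤ)) (h : ℤ → ℂ) (hh : ∀ m, ‖h m‖ ≤ 1)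
    (y : ℤ → K) (B : ℝ) (hy : ∀ m, ‖y m‖ ≤ B) (N : ℕ) :
    ‖∑ m ∈ Ioc (0 : ℤ) N, h m • y m‖ ≤
      √(∑ m ∈ Ioc (0 : ℤ) N, ‖h m‖ ^ 2) * √(∑ m ∈ Ioc (0 : ℤ) N, ‖zw S c y m‖ ^ 2) +
      B * √N * √(∑ m ∈ Ioc (0 : ℤ) N, ‖gw S c h m‖ ^ 2) + 2 * D * B * ∑ k ∈ S, ‖c k‖ := by
  have hB : 0 ≤ B := (norm_nonneg _).trans (hy 0)
  obtain ⟨r, hr, e⟩ := window_eq S c D hD h hh y B hy 0 N
  rw [zero_add] at e
  rw [e]
  refine norm_add₃_le.trans (add_le_add (add_le_add ?_ ?_) hr)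
  · rw [← Real.sqrt_mul (sum_nonneg fun _ _ => sq_nonneg _)]
    refine Real.le_sqrt_of_sq_le ?_
    exact norm_sum_sq_le _ _ _
  · have h1 : B * √N = √(B ^ 2 * N) := by
      rw [Real.sqrt_mul (sq_nonneg B), Real.sqrt_sq hB]
    rw [h1, ← Real.sqrt_mul (by positivity)]
    refine Real.le_sqrt_of_sq_le ?_
    refine (norm_sum_sq_le _ _ _).trans ?_
    rw [mul_comm]
    refine mul_le_mul_of_nonneg_right ?_ (sum_nonneg fun _ _ => sq_nonneg _)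
    calc ∑ m ∈ Ioc (0 : ℤ) N, ‖y m‖ ^ 2 ≤ ∑ _m ∈ Ioc (0 : ℤ) (N : ℤ), B ^ 2 :=
          sum_le_sum fun m _ => pow_le_pow_left₀ (norm_nonneg _) (hy m) 2
      _ = B ^ 2 * N := by rw [sum_const, nsmul_eq_mul, Int.card_Ioc]; simp [mul_comm]

lemma sum_h {f : ℕ → ℤ} (θ : UnitAddCircle) (N : ℕ) :
    ∑ m ∈ Ioc (0 : ℤ) N, ‖ext0 (tws f θ) m‖ ^ 2 = ∑ n ∈ Icc 1 N, |(f n : ℝ)| ^ 2 := by
  refine sum_nbij' (fun m : ℤ => m.toNat) (fun n : ℕ => (n : ℤ)) ?_ ?_ ?_ ?_ ?_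
  · intro m hm
    rw [mem_Ioc] at hm
    rw [mem_Icc]
    omega
  · intro n hn
    rw [mem_Icc] at hn
    rw [mem_Ioc]
    omega
  · intro m hm
    rw [mem_Ioc] at hm
    omega
  · intro n _
    simp
  · intro m hm
    rw [mem_Ioc] at hm
    unfold ext0
    rw [if_pos hm.1]
    unfold tws
    rw [norm_mul, fourier_apply, Circle.norm_coe, mul_one, Complex.norm_intCast]

/-- **The criterion**: only the absolutely continuous part contributes. -/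
theorem crit {f : ℕ → ℤ} (hb : ∀ n, |f n| ≤ 1) {E : Set ℕ} (hE : Kf f E) {q : ℝ} (hq0 : 0 ≤ q) (hq : Msq f q)
    {ι : Type*} (y : ι → ℤ → K) (B : ℝ) (hB : 0 ≤ B) (hy : ∀ i m, ‖y i m‖ ≤ B) (c : ℝ) (hc : 0 ≤ c)
    (hyp : ∀ (a : ℕ → ℕ) (s : ℕ → ι) (𝒱 : Ultrafilter ℕ), (∀ j, a j ∉ E) → Tendsto a 𝒱 atTop →
      ∃ σ : Measure UnitAddCircle, IsFiniteMeasure σ ∧ SpecU (fun j => y (s j)) a 𝒱 σ ∧ Near σ c)
    (ε : ℝ) (hε : 0 < ε) :
    ∃ N₀ : ℕ, ∀ N ≥ N₀, N ∉ E → ∀ (θ : UnitAddCircle) (i : ι),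
      ‖∑ m ∈ Ioc (0 : ℤ) N, ext0 (tws f θ) m • y i m‖ ≤ (√(q * c) + ε) * N := by
  classical
  by_contra hcon
  have hcon' : ∀ j : ℕ, ∃ (N : ℕ) (θ : UnitAddCircle) (i : ι), j + 1 ≤ N ∧ N ∉ E ∧
      (√(q * c) + ε) * N < ‖∑ m ∈ Ioc (0 : ℤ) N, ext0 (tws f θ) m • y i m‖ := by
    intro j
    by_contra h
    apply hcon
    refine ⟨j + 1, fun N hN hNE θ i => ?_⟩
    by_contra h1
    exact h ⟨N, θ, i, hN, hNE, not_le.1 h1⟩
  choose a t s haj hNE hbig using hcon'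
  have hat : Tendsto a atTop atTop := tendsto_atTop_mono haj (tendsto_add_atTop_nat 1)
  obtain ⟨𝒱, h𝒱⟩ : ∃ 𝒱 : Ultrafilter ℕ, (𝒱 : Filter ℕ) ≤ atTop := Ultrafilter.exists_le atTop
  have h𝒱a : Tendsto a 𝒱 atTop := hat.mono_left h𝒱
  obtain ⟨σ, hσ, hspec, hnear⟩ := hyp a s 𝒱 hNE h𝒱a
  obtain ⟨s', hs⟩ : ∃ s' : ℝ, s' = σ.real Set.univ := ⟨_, rfl⟩
  have hs0 : 0 ≤ s' := by rw [hs]; exact measureReal_nonneg
  -- the parameter
  obtain ⟨G, hG⟩ : ∃ G : ℝ → ℝ, G = fun δ => √((q + δ) * (c + δ * (2 + 3 * s'))) + B * √(5 * δ) + δ := ⟨_, rfl⟩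
  have hGc : Continuous G := by
    rw [hG]
    fun_prop
  have hG0 : G 0 = √(q * c) := by
    rw [hG]
    simp
  have hev : ∀ᶠ δ in 𝓝 (0 : ℝ), G δ < √(q * c) + ε := by
    have := hGc.tendsto 0
    rw [hG0] at this
    exact this.eventually (gt_mem_nhds (by linarith))
  obtain ⟨ρ, hρ, hρ2⟩ := Metric.eventually_nhds_iff.1 hev
  obtain ⟨δ, hδ⟩ : ∃ δ : ℝ, δ = min 1 (ρ / 2) := ⟨_, rfl⟩
  have hδ0 : 0 < δ := by rw [hδ]; positivity
  have hδ1 : δ ≤ 1 := by rw [hδ]; exact min_le_left _ _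
  have hGδ : G δ < √(q * c) + ε := by
    apply hρ2
    rw [dist_zero_right, Real.norm_eq_abs, abs_of_pos hδ0]
    have : δ ≤ ρ / 2 := by rw [hδ]; exact min_le_right _ _
    linarith
  obtain ⟨g, hg0, hgσ, hgv⟩ := exists_f hnear δ hδ0
  obtain ⟨S, e, hSe⟩ := exists_TP g δ hδ0
  obtain ⟨D, hD⟩ : ∃ D : ℕ, ∀ k ∈ S, |k| ≤ (D : ℤ) := by
    refine ⟨∑ k ∈ S, k.natAbs, fun k hk => ?_⟩
    rw [Int.abs_eq_natAbs]
    exact_mod_cast single_le_sum (f := fun k : ℤ => k.natAbs) (fun _ _ => Nat.zero_le _) hk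
  -- the spectral measure of the remainder
  have h1 : ∫ η, ‖1 - TP S e η‖ ^ 2 ∂σ ≤ c + δ * (1 + 3 * s') := by
    calc ∫ η, ‖1 - TP S e η‖ ^ 2 ∂σ ≤ ∫ η, ((1 - g η) ^ 2 + 3 * δ) ∂σ := by
          apply integral_mono
          · exact int_of_cont ((continuous_const.sub (TP_cont S e)).norm.pow 2) σ
          · exact int_of_cont (by fun_prop) σ
          intro η
          simp only
          have h1 : ‖1 - TP S e η‖ ≤ (1 - g η) + δ := by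
            have h2 : 1 - TP S e η = (((1 - g η : ℝ)) : ℂ) - (TP S e η - (g η : ℂ)) := by
              push_cast; ring
            rw [h2]
            refine (norm_sub_le _ _).trans (add_le_add ?_ (hSe η))
            rw [Complex.norm_real, Real.norm_eq_abs, abs_of_nonneg (by linarith [(hg0 η).2])]
          have h2 : ‖1 - TP S e η‖ ^ 2 ≤ ((1 - g η) + δ) ^ 2 := pow_le_pow_left₀ (norm_nonneg _) h1 2
          have h3 : (1 - g η) * δ ≤ 1 * δ := mul_le_mul_of_nonneg_right (by linarith [(hg0 η).1]) hδ0.le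
          have h4 : δ * δ ≤ 1 * δ := mul_le_mul_of_nonneg_right hδ1 hδ0.le
          nlinarith
      _ = ∫ η, (1 - g η) ^ 2 ∂σ + 3 * δ * s' := by
          rw [integral_add, integral_const, smul_eq_mul, hs]
          · ring
          · exact int_of_cont (by fun_prop) σ
          · exact integrable_const _
      _ ≤ _ := by linarith
  have h2 : ∑ k ∈ S, ‖e k‖ ^ 2 ≤ 4 * δ := by
    rw [← pars]
    calc ∫ η, ‖TP S e η‖ ^ 2 ≤ ∫ η, (g η ^ 2 + 3 * δ) := by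
          apply integral_mono
          · exact int_of_cont ((TP_cont S e).norm.pow 2) _
          · exact int_of_cont (by fun_prop) _
          intro η
          simp only
          have h1 : ‖TP S e η‖ ≤ g η + δ := by
            have h2 : TP S e η = ((g η : ℝ) : ℂ) + (TP S e η - (g η : ℂ)) := by ring
            rw [h2]
            refine (norm_add_le _ _).trans (add_le_add ?_ (hSe η))
            rw [Complex.norm_real, Real.norm_eq_abs, abs_of_nonneg (hg0 η).1]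
          have h2 : ‖TP S e η‖ ^ 2 ≤ (g η + δ) ^ 2 := pow_le_pow_left₀ (norm_nonneg _) h1 2
          have h3 : g η * δ ≤ 1 * δ := mul_le_mul_of_nonneg_right (hg0 η).2 hδ0.le
          have h4 : δ * δ ≤ 1 * δ := mul_le_mul_of_nonneg_right hδ1 hδ0.le
          nlinarith
      _ = (∫ η, g η ^ 2) + 3 * δ := by
          rw [integral_add, integral_const, smul_eq_mul, vol_univ', one_mul]
          · exact int_of_cont (by fun_prop) _
          · exact integrable_const _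
      _ ≤ _ := by linarith
  obtain ⟨N₁, hN₁⟩ := gw_ms hb hE S e δ hδ0
  obtain ⟨N₂, hN₂⟩ := hq δ hδ0
  obtain ⟨N₃, hN₃⟩ := exists_nat_ge (2 * D * B * (∑ k ∈ S, ‖e k‖) / δ)
  have hlim := specU_zw (fun j => hy (s j)) h𝒱a hspec S e
  have hev2 : ∀ᶠ j : ℕ in (𝒱 : Filter ℕ), (1 / (a j : ℝ)) * ∑ m ∈ Ioc (0 : ℤ) (a j), ‖zw S e (y (s j)) m‖ ^ 2 <
      c + δ * (2 + 3 * s') := hlim.eventually (gt_mem_nhds (by nlinarith))
  obtain ⟨j, hj1, hj2⟩ := (hev2.and (h𝒱a.eventually_ge_atTop (N₁ + N₂ + N₃ + 1))).exists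
  obtain ⟨N, hN⟩ : ∃ N : ℕ, N = a j := ⟨_, rfl⟩
  rw [← hN] at hj1 hj2
  have hNr : (0 : ℝ) < N := by exact_mod_cast (by omega : 0 < N)
  have hNE' : N ∉ E := by rw [hN]; exact hNE j
  have hbig' := hbig j
  rw [← hN] at hbig'
  have w1 := long_det S e D hD (ext0 (tws f (t j))) (ext0_le (norm_tws hb (t j))) (y (s j)) B (hy (s j)) N
  have w2 : ∑ m ∈ Ioc (0 : ℤ) N, ‖zw S e (y (s j)) m‖ ^ 2 ≤ (c + δ * (2 + 3 * s')) * N := by
    rw [one_div, inv_mul_lt_iff₀ hNr] at hj1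
    linarith
  have w3 : ∑ m ∈ Ioc (0 : ℤ) N, ‖ext0 (tws f (t j)) m‖ ^ 2 ≤ (q + δ) * N := by
    rw [sum_h]
    exact hN₂ N (by omega)
  have w4 : ∑ m ∈ Ioc (0 : ℤ) N, ‖gw S e (ext0 (tws f (t j))) m‖ ^ 2 ≤ 5 * δ * N := by
    refine (hN₁ N (by omega) hNE' (t j)).trans ?_
    exact mul_le_mul_of_nonneg_right (by linarith) hNr.le
  have w5 : 2 * D * B * ∑ k ∈ S, ‖e k‖ ≤ δ * N := by
    have : 2 * D * B * (∑ k ∈ S, ‖e k‖) / δ ≤ N := hN₃.trans (by exact_mod_cast (by omega : N₃ ≤ N))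
    rw [div_le_iff₀ hδ0] at this
    linarith
  have w6 : √(∑ m ∈ Ioc (0 : ℤ) N, ‖ext0 (tws f (t j)) m‖ ^ 2) *
      √(∑ m ∈ Ioc (0 : ℤ) N, ‖zw S e (y (s j)) m‖ ^ 2) ≤ √((q + δ) * (c + δ * (2 + 3 * s'))) * N := by
    calc _ ≤ √((q + δ) * N) * √((c + δ * (2 + 3 * s')) * N) :=
          mul_le_mul (Real.sqrt_le_sqrt w3) (Real.sqrt_le_sqrt w2) (Real.sqrt_nonneg _) (Real.sqrt_nonneg _)
      _ = √((q + δ) * (c + δ * (2 + 3 * s')) * (N * N)) := by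
          rw [← Real.sqrt_mul (by positivity)]
          congr 1
          ring
      _ = _ := by rw [Real.sqrt_mul (by positivity), Real.sqrt_mul_self hNr.le]
  have w7 : B * √N * √(∑ m ∈ Ioc (0 : ℤ) N, ‖gw S e (ext0 (tws f (t j))) m‖ ^ 2) ≤ B * √(5 * δ) * N := by
    rw [mul_assoc, mul_assoc]
    refine mul_le_mul_of_nonneg_left ?_ hB
    calc _ ≤ √N * √(5 * δ * N) := mul_le_mul_of_nonneg_left (Real.sqrt_le_sqrt w4) (Real.sqrt_nonneg _)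
      _ = √(5 * δ * (N * N)) := by
          rw [← Real.sqrt_mul (Nat.cast_nonneg _)]
          congr 1
          ring
      _ = _ := by rw [Real.sqrt_mul (by positivity), Real.sqrt_mul_self hNr.le]
  have w8 : ‖∑ m ∈ Ioc (0 : ℤ) N, ext0 (tws f (t j)) m • y (s j) m‖ ≤ G δ * N := by
    rw [hG]
    simp only
    linarith
  have w9 : G δ * N ≤ (√(q * c) + ε) * N := mul_le_mul_of_nonneg_right hGδ.le hNr.le
  linarith

/-- sums which are small outside `E` -/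
def Sm (f : ℕ → ℤ) (E : Set ℕ) {ι : Type*} (w : ι → ℤ → K) : Prop := ∀ ε : ℝ, 0 < ε →
  ∃ N₀ : ℕ, ∀ N ≥ N₀, N ∉ E → ∀ (θ : UnitAddCircle) (i : ι), ‖∑ m ∈ Ioc (0 : ℤ) N, ext0 (tws f θ) m • w i m‖ ≤ ε * N

variable {f : ℕ → ℤ} {E : Set ℕ} {ι : Type*}

lemma Sm.zero : Sm f E (fun (_ : ι) _ => (0 : K)) := by
  intro ε hε
  refine ⟨0, fun N _ _ θ i => ?_⟩
  simp only [smul_zero, sum_const_zero, norm_zero]
  positivity

lemma Sm.add {w w' : ι → ℤ → K} (h : Sm f E w) (h' : Sm f E w') : Sm f E (fun i m => w i m + w' i m) := by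
  intro ε hε
  obtain ⟨N₁, h1⟩ := h (ε / 2) (by positivity)
  obtain ⟨N₂, h2⟩ := h' (ε / 2) (by positivity)
  refine ⟨N₁ + N₂, fun N hN hNE θ i => ?_⟩
  simp_rw [smul_add, sum_add_distrib]
  refine (norm_add_le _ _).trans ?_
  have e1 := h1 N (by omega) hNE θ i
  have e2 := h2 N (by omega) hNE θ i
  linarith

lemma Sm.smul {w : ι → ℤ → K} (h : Sm f E w) (c : ℂ) : Sm f E (fun i m => c • w i m) := by
  intro ε hε
  obtain ⟨N₁, h1⟩ := h (ε / (‖c‖ + 1)) (by positivity)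
  refine ⟨N₁, fun N hN hNE θ i => ?_⟩
  simp_rw [smul_comm _ c, ← smul_sum]
  rw [norm_smul]
  calc ‖c‖ * _ ≤ ‖c‖ * (ε / (‖c‖ + 1) * N) := mul_le_mul_of_nonneg_left (h1 N hN hNE θ i) (norm_nonneg _)
    _ = (‖c‖ / (‖c‖ + 1)) * (ε * N) := by ring
    _ ≤ 1 * (ε * N) := by
        apply mul_le_mul_of_nonneg_right _ (by positivity)
        rw [div_le_one (by positivity)]
        linarith
    _ = _ := one_mul _

lemma Sm.lim (hb : ∀ n, |f n| ≤ 1) {w : ι → ℤ → K}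
    (hw : ∀ η : ℝ, 0 < η → ∃ w' : ι → ℤ → K, Sm f E w' ∧ ∀ i m, ‖w i m - w' i m‖ ≤ η) : Sm f E w := by
  intro ε hε
  obtain ⟨w', hw', hd⟩ := hw (ε / 2) (by positivity)
  obtain ⟨N₁, h1⟩ := hw' (ε / 2) (by positivity)
  refine ⟨N₁, fun N hN hNE θ i => ?_⟩
  have e1 : ∑ m ∈ Ioc (0 : ℤ) N, ext0 (tws f θ) m • w i m = ∑ m ∈ Ioc (0 : ℤ) N, ext0 (tws f θ) m • w' i m +
      ∑ m ∈ Ioc (0 : ℤ) N, ext0 (tws f θ) m • (w i m - w' i m) := by
    rw [← sum_add_distrib]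
    refine sum_congr rfl fun m _ => ?_
    rw [← smul_add]
    congr 1
    abel
  have e2 : ‖∑ m ∈ Ioc (0 : ℤ) N, ext0 (tws f θ) m • (w i m - w' i m)‖ ≤ ε / 2 * N := by
    refine (norm_sum_le _ _).trans ?_
    calc _ ≤ ∑ _m ∈ Ioc (0 : ℤ) (N : ℤ), ε / 2 := by
          refine sum_le_sum fun m _ => ?_
          rw [norm_smul]
          calc _ ≤ 1 * ‖w i m - w' i m‖ := mul_le_mul_of_nonneg_right (ext0_le (norm_tws hb θ) m) (norm_nonneg _)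
            _ ≤ _ := by rw [one_mul]; exact hd i m
      _ = _ := by rw [sum_const, nsmul_eq_mul, Int.card_Ioc]; simp [mul_comm]
  rw [e1]
  refine (norm_add_le _ _).trans ?_
  have e3 := h1 N hN hNE θ i
  linarith

end crit

section Cst

universe u v

variable {A : Type u} [NonUnitalCStarAlgebra A] (α : A ≃⋆ₐ[ℂ] A) {ι : Type*}
variable {K : Type v} [NormedAddCommGroup K] [InnerProductSpace ℂ K] [CompleteSpace K]
variable {π : A →⋆ₙₐ[ℂ] (K →L[ℂ] K)} {Ξ : ι → K} {R : ℝ}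

open scoped ComplexOrder

lemma phi_norm (hR : ∀ i, ‖Ξ i‖ ≤ R) {a : ℕ → ℕ} {s : ℕ → ι} {𝒱 : Ultrafilter ℕ} {φ : A →L[ℂ] ℂ}
    (h : ∀ c, Tendsto (fun j => av α (rr π (Ξ (s j))) (a j) c) 𝒱 (𝓝 (φ c))) : ‖φ‖ ≤ R ^ 2 := by
  refine ContinuousLinearMap.opNorm_le_bound _ (sq_nonneg _) fun c => ?_
  refine le_of_tendsto (h c).norm (Eventually.of_forall fun j => ?_)
  exact (av_le α π _ _ c).trans (mul_le_mul_of_nonneg_right (pow_le_pow_left₀ (norm_nonneg _) (hR _) 2) (norm_nonneg _))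

theorem orbit {f : ℕ → ℤ} (hb : ∀ n, |f n| ≤ 1) {E : Set ℕ} (hE : Kf f E) {q : ℝ} (hq0 : 0 ≤ q) (hq : Msq f q)
    (hR0 : 0 ≤ R) (hR : ∀ i, ‖Ξ i‖ ≤ R) (u : A) (c : ℝ) (hc : 0 ≤ c)
    (H : ∀ φ : A →L[ℂ] ℂ, (∀ a, 0 ≤ φ (star a * a)) → (∀ a, φ (α a) = φ a) → ‖φ‖ ≤ R ^ 2 →
      CluU α (fun i => rr π (Ξ i)) φ →
      ∃ σ : Measure UnitAddCircle, IsFiniteMeasure σ ∧
        (∀ k : ℕ, φ (star u * (α ^ k) u) = ∫ η, (fourier (k : ℤ) η : ℂ) ∂σ) ∧ Near σ c) (ε : ℝ) (hε : 0 < ε) :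
    ∃ N₀ : ℕ, ∀ N ≥ N₀, N ∉ E → ∀ (θ : UnitAddCircle) (i : ι),
      ‖∑ m ∈ Ioc (0 : ℤ) N, ext0 (tws f θ) m • yy α π (Ξ i) u m‖ ≤ (√(q * c) + ε) * N := by
  refine crit hb hE hq0 hq (fun i => yy α π (Ξ i) u) (R * ‖u‖) (by positivity)
    (fun i m => (yy_le α π (Ξ i) u m).trans (mul_le_mul_of_nonneg_right (hR i) (norm_nonneg _))) c hc ?_ ε hε
  intro a s 𝒱 _ h𝒱
  obtain ⟨φ, hφ⟩ := exists_phiU α π Ξ R hR a s 𝒱
  obtain ⟨σ, h1, h2, h3⟩ := H φ (phiU_pos α hφ) (phiU_inv α hR h𝒱 hφ) (phi_norm α hR hφ) (phiU_clu α h𝒱 hφ)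
  exact ⟨σ, h1, phiU_spec α hφ u h2, h3⟩

lemma Sm_closure {f : ℕ → ℤ} (hb : ∀ n, |f n| ≤ 1) {E : Set ℕ} (hR0 : 0 ≤ R) (hR : ∀ i, ‖Ξ i‖ ≤ R) {D : Set A}
    (hD : ∀ u ∈ D, Sm f E (fun i => yy α π (Ξ i) u)) {u : A} (hu : u ∈ closure (Submodule.span ℂ D : Set A)) :
    Sm f E (fun i => yy α π (Ξ i) u) := by
  have h1 : ∀ v ∈ Submodule.span ℂ D, Sm f E (fun i => yy α π (Ξ i) v) := by
    intro v hv
    induction hv using Submodule.span_induction with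
    | mem x hx => exact hD x hx
    | zero =>
      have : (fun i => yy α π (Ξ i) (0 : A)) = fun _ _ => 0 := by
        funext i m; simp [yy]
      rw [this]
      exact Sm.zero
    | add x y _ _ hx hy =>
      have : (fun i => yy α π (Ξ i) (x + y)) = fun i m => yy α π (Ξ i) x m + yy α π (Ξ i) y m := by
        funext i m; simp [yy]
      rw [this]
      exact hx.add hy
    | smul c x _ hx =>
      have : (fun i => yy α π (Ξ i) (c • x)) = fun i m => c • yy α π (Ξ i) x m := by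
        funext i m; simp [yy]
      rw [this]
      exact hx.smul c
  refine Sm.lim hb fun η hη => ?_
  obtain ⟨v, hv, hvu⟩ := Metric.mem_closure_iff.1 hu (η / (R + 1)) (by positivity)
  refine ⟨fun i => yy α π (Ξ i) v, h1 v hv, fun i m => ?_⟩
  have e : yy α π (Ξ i) u m - yy α π (Ξ i) v m = yy α π (Ξ i) (u - v) m := by simp [yy]
  rw [e]
  refine (yy_le α π (Ξ i) _ m).trans ?_
  rw [dist_eq_norm] at hvu
  calc ‖Ξ i‖ * ‖u - v‖ ≤ R * (η / (R + 1)) := mul_le_mul (hR i) hvu.le (norm_nonneg _) hR0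
    _ = (R / (R + 1)) * η := by ring
    _ ≤ 1 * η := by
        apply mul_le_mul_of_nonneg_right _ hη.le
        rw [div_le_one (by positivity)]
        linarith
    _ = η := one_mul _

end Cst

end

end Pool.Agent.U708.SP
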